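import Pool.Agent.CollatzTime.Small
import Pool.Agent.CollatzTime.OOcount
import Pool.Agent.CollatzTime.Transfer
import Pool.Agent.CollatzTime.Final

/-!
# Almost all Collatz trajectories descend along a straight line to almost bounded values
-/

set_option autoImplicit false

open Filter Topology

namespace CollatzPow.StraightDescent

/-- The Collatz map on the integers: `y / 2` for even `y` and `3 y + 1` for odd `y`. -/
def C (y : ℤ) : ℤ := if Even y then y / 2 else 3 * y + 1

/-- `T` is the first step at which the trajectory of `n` attains its minimal absolute value. This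
minimum is at most `f |n|`; the step `T` differs from `3 / log (4 / 3) * log |n|` by at most
`ε log |n|`; and for every step `k ≤ T`, the number `log |C^k(n)|` differs from
`log |n| - k * log (4 / 3) / 3` by at most `ε log |n|`. -/
def Descends (f : ℕ → ℝ) (ε : ℝ) (n : ℤ) (T : ℕ) : Prop :=
  (∀ j : ℕ, (C^[T] n).natAbs ≤ (C^[j] n).natAbs) ∧ (∀ j < T, (C^[T] n).natAbs < (C^[j] n).natAbs) ∧
  ((C^[T] n).natAbs : ℝ) ≤ f n.natAbs ∧
  |(T : ℝ) - 3 / Real.log (4 / 3) * Real.log n.natAbs| ≤ ε * Real.log n.natAbs ∧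
  ∀ k ≤ T, |Real.log (C^[k] n).natAbs - (Real.log n.natAbs - k * Real.log (4 / 3) / 3)| ≤
    ε * Real.log n.natAbs

/-- Let `f` be a real function on the natural numbers that tends to infinity, and `ε > 0`. The
proportion of the integers `n` with `|n| ≤ N` whose trajectory descends along a straight line to its
minimum, up to the errors given by `f` and `ε`, tends to `1` as `N` tends to infinity. -/
theorem result (f : ℕ → ℝ) (hf : Tendsto f atTop atTop) (ε : ℝ) (hε : 0 < ε) :
    Tendsto (fun N : ℕ => ({n : ℤ | n.natAbs ≤ N ∧ ∃ T, Descends f ε n T}.ncard : ℝ) / (2 * N + 1))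
      atTop (𝓝 1) := by
  have h := CollatzTime.final_proof (CollatzTime.oo_proof CollatzTime.small_proof CollatzTime.adm_proof)
    CollatzTime.transfer_proof f hf ε hε
  refine h.congr fun N => ?_
  congr 3
  ext n
  have e1 : |n| ≤ (N : ℤ) ↔ n.natAbs ≤ N := by rw [Int.abs_eq_natAbs]; exact_mod_cast Iff.rfl
  have e2 : ∀ a b : ℤ, |a| ≤ |b| ↔ a.natAbs ≤ b.natAbs := fun a b => by
    rw [Int.abs_eq_natAbs, Int.abs_eq_natAbs]; exact_mod_cast Iff.rfl
  have e3 : ∀ a b : ℤ, |a| < |b| ↔ a.natAbs < b.natAbs := fun a b => by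
    rw [Int.abs_eq_natAbs, Int.abs_eq_natAbs]; exact_mod_cast Iff.rfl
  have e4 : ∀ a : ℤ, |(a : ℝ)| = (a.natAbs : ℝ) := fun a => by rw [Nat.cast_natAbs, Int.cast_abs]
  have e5 : ∀ k : ℕ, (k : ℝ) / CollatzTime.kap = k * Real.log (4 / 3) / 3 := fun k => by
    unfold CollatzTime.kap
    rw [div_div_eq_mul_div]
  refine and_congr e1 (exists_congr fun T => and_congr (forall_congr' fun j => e2 _ _)
    (and_congr (forall_congr' fun j => imp_congr Iff.rfl (e3 _ _)) (and_congr ?_ (and_congr ?_
      (forall_congr' fun k => imp_congr Iff.rfl ?_)))))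
  · rw [Int.cast_abs, e4]
    exact Iff.rfl
  · rw [e4]
    exact Iff.rfl
  · rw [e4, e4, e5]
    exact Iff.rfl

end CollatzPow.StraightDescent
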